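import Pool.Agent.Helper54.S4.Stmts

/-! Module LT0. -/

set_option autoImplicit false

namespace Pool.Agent.Helper54.S4

open Finset Pool.Agent.Helper54.SP

private theorem lt0_tr {a b c : ℝ} (h1 : 0 < a * b) (h2 : 0 < b * c) : 0 < a * c := by
  rcases pos_and_pos_or_neg_and_neg_of_mul_pos h1 with ⟨ha, hb⟩ | ⟨ha, hb⟩
  · have hc : 0 < c := by
      rcases pos_and_pos_or_neg_and_neg_of_mul_pos h2 with ⟨_, hc⟩ | ⟨hb', _⟩
      · exact hc
      · linarith
    exact mul_pos ha hc
  · have hc : c < 0 := by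
      rcases pos_and_pos_or_neg_and_neg_of_mul_pos h2 with ⟨hb', _⟩ | ⟨_, hc⟩
      · linarith
      · exact hc
    exact mul_pos_of_neg_of_neg ha hc

private theorem lt0_p132 (a b c d : ℕ) : [a, b, c, d].Perm [a, c, b, d] :=
  (List.Perm.swap c b [d]).cons a

private theorem lt0_p213 (a b c d : ℕ) : [a, b, c, d].Perm [b, a, c, d] :=
  List.Perm.swap b a [c, d]

private theorem lt0_p1243 (a b c d : ℕ) : [a, b, c, d].Perm [a, b, d, c] :=
  ((List.Perm.swap d c []).cons b).cons a

theorem st_LT0 (h1 : ST_VC4) (h2 : ST_AD4) (h3 : ST_FLIP) (h4 : ST_CV) (h5 : ST_PT4)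
    (h6 : ST_BR) (h7 : ST_OSP) : ST_LT4 false := by
  intro Γ nw X hwf hfan j hj htj T hT
  have hΓ : 0 < Γ.length := by omega
  set N := N4 Γ with hN
  have hNv : N = 3 + 24 * Γ.length := rfl
  have hlt : ∀ i, i < 6 → pt j i < N := by
    intro i hi
    unfold pt
    omega
  have hge : ∀ i, 3 ≤ pt j i := by
    intro i
    unfold pt
    omega
  obtain ⟨q1, -, -, -, -, -, -⟩ := h5
  -- the vertical facet
  have hVL : VL Γ (pt j 0) (pt j 5) := by
    refine ⟨by have := hge 0; omega, hlt 5 (by norm_num), Or.inr (Or.inl ⟨hge 0, ?_, ?_, ?_⟩)⟩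
    · exact (q1 j 0 (by norm_num)).2.1
    · rw [(q1 j 0 (by norm_num)).2.2.1, htj]
    · unfold pt
      omega
  have e0 := h1 Γ nw X hΓ hfan _ _ hVL
  have v0 := hfan.vf _ _ hVL
  rw [← hN] at e0 v0
  have tt : ∀ a b c, (a, b, c) ∈ TT false → OS 5 X (N + 2) [pt j a, pt j b, pt j c, N + 1] := by
    intro a b c h
    have := hfan.tf j hj (a, b, c) (by rw [htj]; exact h)
    exact this
  have t012 := tt 0 1 2 (by simp [TT])
  have t014 := tt 0 1 4 (by simp [TT])
  have t045 := tt 0 4 5 (by simp [TT])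
  have t125 := tt 1 2 5 (by simp [TT])
  have t134 := tt 1 3 4 (by simp [TT])
  have t135 := tt 1 3 5 (by simp [TT])
  have t345 := tt 3 4 5 (by simp [TT])
  have f1235 : OS 5 X (N + 2) [pt j 1, pt j 2, pt j 3, pt j 5] :=
    hfan.ff j hj (1, 2, 3, 5) (by rw [htj]; simp [FL])
  have f1234 : OS 5 X (N + 2) [pt j 1, pt j 2, pt j 3, pt j 4] :=
    hfan.ff j hj (1, 2, 3, 4) (by rw [htj]; simp [FL])
  have cov : ∀ i, i < 6 → Cov4 N X (pt j i) N ∧ Cov4 N X (pt j i) (N + 1) := fun i hi =>
    h4 Γ nw X hwf hfan (pt j i) (hge i) (hlt i hi)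
  have nd : ∀ a b c d : ℕ, a ≠ b → a ≠ c → a ≠ d → b ≠ c → b ≠ d → c ≠ d →
      [pt j a, pt j b, pt j c, pt j d].Nodup := by
    intro a b c d hab hac had hbc hbd hcd
    simp only [List.nodup_cons, List.mem_cons, List.not_mem_nil, or_false, not_or, pt,
      List.nodup_nil, and_true, not_false_eq_true]
    omega
  have AD : ∀ a b c d : ℕ, a < 6 → b < 6 → c < 6 → d < 6 → a ≠ b → a ≠ c → a ≠ d → b ≠ c →
      b ≠ d → c ≠ d → ∀ f g : List ℕ, f.Perm [pt j a, pt j b, pt j c, N + 1] →
      g.Perm [pt j a, pt j c, pt j d, N + 1] → OS 5 X (N + 2) f → OS 5 X (N + 2) g →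
      0 < br N 2 X (pt j a) (pt j b) (pt j c) * br N 2 X (pt j a) (pt j c) (pt j d) := by
    intro a b c d ha hb hc hd hab hac had hbc hbd hcd f g hf hg Hf Hg
    exact h2 N X _ _ _ _ f g (nd a b c d hab hac had hbc hbd hcd) (hlt a ha) (hlt b hb) (hlt c hc)
      (hlt d hd) hf hg Hf Hg
  set R := br N 2 X 0 2 3 with hR
  have BR := h6 N 2 X
  have s045 : 0 < br N 2 X (pt j 0) (pt j 4) (pt j 5) * R := by
    have := h2 N X (pt j 0) 0 (pt j 5) (pt j 4) [0, pt j 0, pt j 5, N + 1]
      [pt j 0, pt j 4, pt j 5, N + 1] (by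
        simp only [List.nodup_cons, List.mem_cons, List.not_mem_nil, or_false, not_or, pt,
          List.nodup_nil, and_true, not_false_eq_true]
        omega) (hlt 0 (by norm_num)) (by omega) (hlt 5 (by norm_num)) (hlt 4 (by norm_num))
      (lt0_p213 _ _ _ _) (lt0_p132 _ _ _ _) v0 t045
    rw [(BR 0 (pt j 0) (pt j 5)).1, (BR (pt j 0) (pt j 4) (pt j 5)).2.1, neg_mul_neg,
      mul_comm] at this
    exact lt0_tr this e0
  have s014 : 0 < br N 2 X (pt j 0) (pt j 1) (pt j 4) * R := by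
    have := AD 0 5 4 1 (by norm_num) (by norm_num) (by norm_num) (by norm_num) (by norm_num)
      (by norm_num) (by norm_num) (by norm_num) (by norm_num) (by norm_num) _ _
      (lt0_p132 _ _ _ _) (lt0_p132 _ _ _ _) t045 t014
    rw [(BR (pt j 0) (pt j 4) (pt j 5)).2.1, (BR (pt j 0) (pt j 1) (pt j 4)).2.1, neg_mul_neg,
      mul_comm] at this
    exact lt0_tr this s045
  have s012 : 0 < -br N 2 X (pt j 0) (pt j 1) (pt j 2) * R := by
    have := AD 0 4 1 2 (by norm_num) (by norm_num) (by norm_num) (by norm_num) (by norm_num)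
      (by norm_num) (by norm_num) (by norm_num) (by norm_num) (by norm_num) _ _
      (lt0_p132 _ _ _ _) (List.Perm.refl _) t014 t012
    rw [(BR (pt j 0) (pt j 1) (pt j 4)).2.1, neg_mul, ← mul_neg, mul_comm] at this
    exact lt0_tr this s014
  have s134 : 0 < br N 2 X (pt j 1) (pt j 3) (pt j 4) * R := by
    have := AD 1 0 4 3 (by norm_num) (by norm_num) (by norm_num) (by norm_num) (by norm_num)
      (by norm_num) (by norm_num) (by norm_num) (by norm_num) (by norm_num) _ _
      (lt0_p213 _ _ _ _) (lt0_p132 _ _ _ _) t014 t134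
    rw [(BR (pt j 0) (pt j 1) (pt j 4)).1, (BR (pt j 1) (pt j 3) (pt j 4)).2.1, neg_mul_neg,
      mul_comm] at this
    exact lt0_tr this s014
  have s135 : 0 < -br N 2 X (pt j 1) (pt j 3) (pt j 5) * R := by
    have := AD 1 4 3 5 (by norm_num) (by norm_num) (by norm_num) (by norm_num) (by norm_num)
      (by norm_num) (by norm_num) (by norm_num) (by norm_num) (by norm_num) _ _
      (lt0_p132 _ _ _ _) (List.Perm.refl _) t134 t135
    rw [(BR (pt j 1) (pt j 3) (pt j 4)).2.1, neg_mul, ← mul_neg, mul_comm] at this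
    exact lt0_tr this s134
  have s125 : 0 < br N 2 X (pt j 1) (pt j 2) (pt j 5) * R := by
    have := AD 1 3 5 2 (by norm_num) (by norm_num) (by norm_num) (by norm_num) (by norm_num)
      (by norm_num) (by norm_num) (by norm_num) (by norm_num) (by norm_num) _ _
      (List.Perm.refl _) (lt0_p132 _ _ _ _) t135 t125
    rw [(BR (pt j 1) (pt j 2) (pt j 5)).2.1, mul_neg, ← neg_mul, mul_comm] at this
    exact lt0_tr this s135
  have s345 : 0 < -br N 2 X (pt j 3) (pt j 4) (pt j 5) * R := by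
    have := AD 3 1 4 5 (by norm_num) (by norm_num) (by norm_num) (by norm_num) (by norm_num)
      (by norm_num) (by norm_num) (by norm_num) (by norm_num) (by norm_num) _ _
      (lt0_p213 _ _ _ _) (List.Perm.refl _) t134 t345
    rw [(BR (pt j 1) (pt j 3) (pt j 4)).1, neg_mul, ← mul_neg, mul_comm] at this
    exact lt0_tr this s134
  have F1 := h3 N X (pt j 1) (pt j 2) (pt j 5) (pt j 3)
    (nd 1 2 5 3 (by norm_num) (by norm_num) (by norm_num) (by norm_num) (by norm_num)
      (by norm_num)) (hlt 1 (by norm_num)) (hlt 2 (by norm_num)) (hlt 5 (by norm_num))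
    (hlt 3 (by norm_num)) (h7 5 X (N + 2) _ _ (lt0_p1243 _ _ _ _) rfl f1235)
    (cov 1 (by norm_num)).1 (cov 1 (by norm_num)).2 (cov 5 (by norm_num)).1
    (cov 5 (by norm_num)).2 (by
      rw [(BR (pt j 1) (pt j 3) (pt j 5)).2.1]
      exact lt0_tr s125 (by rw [mul_comm]; exact s135))
  have s235 : 0 < -br N 2 X (pt j 2) (pt j 3) (pt j 5) * R := by
    have := F1.1
    rw [(BR (pt j 2) (pt j 3) (pt j 5)).2.1, mul_comm] at this
    exact lt0_tr this s125
  have s123 : 0 < br N 2 X (pt j 1) (pt j 2) (pt j 3) * R := by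
    have := F1.2
    rw [mul_comm] at this
    exact lt0_tr this s125
  have F2 := h3 N X (pt j 1) (pt j 2) (pt j 3) (pt j 4)
    (nd 1 2 3 4 (by norm_num) (by norm_num) (by norm_num) (by norm_num) (by norm_num)
      (by norm_num)) (hlt 1 (by norm_num)) (hlt 2 (by norm_num)) (hlt 3 (by norm_num))
    (hlt 4 (by norm_num)) f1234
    (cov 1 (by norm_num)).1 (cov 1 (by norm_num)).2 (cov 3 (by norm_num)).1
    (cov 3 (by norm_num)).2 (lt0_tr s123 (by rw [mul_comm]; exact s134))
  have s234 : 0 < br N 2 X (pt j 2) (pt j 3) (pt j 4) * R := by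
    have := F2.1
    rw [mul_comm] at this
    exact lt0_tr this s123
  have s124 : 0 < br N 2 X (pt j 1) (pt j 2) (pt j 4) * R := by
    have := F2.2
    rw [mul_comm] at this
    exact lt0_tr this s123
  simp only [KT, Bool.false_eq_true, if_false, List.mem_cons, List.not_mem_nil, or_false] at hT
  rcases hT with rfl | rfl | rfl | rfl | rfl | rfl | rfl | rfl | rfl | rfl | rfl
  · simpa [tb4, sb] using s012
  · simpa [tb4, sb] using s014
  · simpa [tb4, sb] using s045
  · simpa [tb4, sb] using s125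
  · simpa [tb4, sb] using s134
  · simpa [tb4, sb] using s135
  · simpa [tb4, sb] using s345
  · simpa [tb4, sb] using s235
  · simpa [tb4, sb] using s123
  · simpa [tb4, sb] using s234
  · simpa [tb4, sb] using s124

end Pool.Agent.Helper54.S4
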